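import Pool.Agent.helper99.PLR.Spec
import Pool.Agent.helper9.HER.Lower

/-! # Row plr:BQ (MP_d9e35a_co) -/

set_option autoImplicit false
set_option linter.unusedVariables false

open scoped Classical

namespace Pool.Agent.PLR

open Finset
open Pool.Agent.helper65.HC (V IsEig IsTop lam)
open Pool.Agent.helper9.HQ (Fam Dn E N Le Eig lk)
open Pool.Agent.helper9.HX (Ef)
open Pool.Agent.helper9.HLR (cel Lc)

noncomputable section

theorem BQ_E (k d : ℕ) (φ : ℕ → ℝ) : E (ball k d) (fun x => φ x.card) =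
    2 * ∑ j ∈ range (k + 1), (d.choose j : ℝ) * ((j : ℝ) * (φ j * φ (j - 1))) := by
  have hb : ball k d = Pool.Agent.helper9.HER.Bl d k := rfl
  unfold E
  rw [hb]
  congr 1
  rw [← Pool.Agent.helper9.HER.sum_Bl d k (fun j => (j : ℝ) * (φ j * φ (j - 1)))]
  refine sum_congr rfl fun x hx => ?_
  have h1 : ∀ i ∈ x, φ x.card * φ (x.erase i).card = φ x.card * φ (x.card - 1) := by
    intro i hi
    rw [card_erase_of_mem hi]
  rw [sum_congr rfl h1, sum_const, nsmul_eq_mul]

/-- The ball itself. -/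
theorem BQ (hWTS : WTS_stmt) : BQ_stmt := by
  intro k d hd
  obtain ⟨c, C, -, -, hW⟩ := hWTS k
  obtain ⟨hG0, hGp, hGz, hrec, -⟩ := hW d hd
  have hd1 : 1 ≤ d := by omega
  have hd0 : (0 : ℝ) < d := by exact_mod_cast hd1
  set H : ℝ := hz (k + 1) * √(d : ℝ) with hH
  set G : ℕ → ℝ := wt k d with hG
  have hG1' : ∀ j, 0 ≤ G j := by
    intro j
    rcases le_or_gt j k with h | h
    · exact (hGp j h).le
    · rw [hGz j h]
  have hH0 : 0 ≤ H := by
    have h1 := hrec 0 (Nat.zero_le _)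
    rw [Nat.cast_zero, zero_mul, zero_add, hG0, mul_one] at h1
    rw [← h1]
    exact mul_nonneg hd0.le (hG1' _)
  have hN : N (ball k d) (fun x => G x.card) = ∑ j ∈ range (k + 1), (d.choose j : ℝ) * G j ^ 2 := by
    unfold N
    exact Pool.Agent.helper9.HER.sum_Bl d k (fun j => G j ^ 2)
  have hN1 : 1 ≤ N (ball k d) (fun x => G x.card) := by
    rw [hN, sum_range_succ']
    have h1 : 0 ≤ ∑ j ∈ range k, (d.choose (j + 1) : ℝ) * G (j + 1) ^ 2 :=
      sum_nonneg fun k _ => by positivity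
    rw [Nat.choose_zero_right, Nat.cast_one, one_mul, hG0]
    linarith
  have hsh : ∑ j ∈ range (k + 1), (d.choose j : ℝ) * ((j : ℝ) * (G j * G (j - 1))) =
      ∑ j ∈ range (k + 1), (d.choose j : ℝ) * (((d : ℝ) - j) * (G j * G (j + 1))) := by
    rw [sum_range_succ', sum_range_succ _ k, hGz (k + 1) (by omega)]
    rw [Nat.cast_zero, zero_mul, mul_zero, mul_zero, mul_zero, mul_zero]
    congr 1
    refine sum_congr rfl fun j _ => ?_
    have h1 := Pool.Agent.helper9.HER.choose_real d j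
    rw [Nat.add_sub_cancel]
    push_cast
    calc (d.choose (j + 1) : ℝ) * (((j : ℝ) + 1) * (G (j + 1) * G j)) =
        ((d.choose (j + 1) : ℝ) * ((j : ℝ) + 1)) * (G (j + 1) * G j) := by ring
      _ = (d.choose j : ℝ) * (((d : ℝ) - j) * (G j * G (j + 1))) := by rw [h1]; ring
  refine ⟨?_, hN1⟩
  rw [BQ_E]
  have e : 2 * ∑ j ∈ range (k + 1), (d.choose j : ℝ) * ((j : ℝ) * (G j * G (j - 1))) =
      ∑ j ∈ range (k + 1), (d.choose j : ℝ) * (G j * ((j : ℝ) * G (j - 1) + ((d : ℝ) - j) * G (j + 1))) := by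
    rw [two_mul]
    nth_rewrite 2 [hsh]
    rw [← sum_add_distrib]
    exact sum_congr rfl fun j _ => by ring
  rw [e, hN, mul_sum]
  refine sum_le_sum fun j hj => ?_
  have hj' : j ≤ k := by
    rw [mem_range] at hj
    omega
  have hjd : j ≤ d := by omega
  have hGj := hGp j hj'
  have hG1 : 0 ≤ G (j - 1) := hG1' _
  have hr := hrec j hj'
  have hjr : (j : ℝ) ≤ k := by exact_mod_cast hj'
  have hjd' : (j : ℝ) ≤ d := by exact_mod_cast hjd
  have hj0 : (0 : ℝ) ≤ j := Nat.cast_nonneg _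
  have h1 : (1 - (k : ℝ) / d) * (H * G j) ≤ (1 - (j : ℝ) / d) * (H * G j) := by
    refine mul_le_mul_of_nonneg_right ?_ (mul_nonneg hH0 hGj.le)
    have := div_le_div_of_nonneg_right hjr hd0.le
    linarith
  have h2 : (1 - (j : ℝ) / d) * (H * G j) ≤ (j : ℝ) * G (j - 1) + ((d : ℝ) - j) * G (j + 1) := by
    rw [← hr]
    have h3 : (1 - (j : ℝ) / d) * (j * G (j - 1) + d * G (j + 1)) =
        (1 - (j : ℝ) / d) * (j * G (j - 1)) + ((d : ℝ) - j) * G (j + 1) := by
      field_simp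
    rw [h3]
    have h4 : (1 - (j : ℝ) / d) * (j * G (j - 1)) ≤ 1 * (j * G (j - 1)) := by
      refine mul_le_mul_of_nonneg_right ?_ (mul_nonneg hj0 hG1)
      have : 0 ≤ (j : ℝ) / d := by positivity
      linarith
    linarith
  have h5 := mul_le_mul_of_nonneg_left (h1.trans h2) (mul_nonneg (Nat.cast_nonneg (d.choose j)) hGj.le)
  calc (1 - (k : ℝ) / d) * H * ((d.choose j : ℝ) * G j ^ 2) =
      (d.choose j : ℝ) * G j * ((1 - (k : ℝ) / d) * (H * G j)) := by ring
    _ ≤ (d.choose j : ℝ) * G j * ((j : ℝ) * G (j - 1) + ((d : ℝ) - j) * G (j + 1)) := h5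
    _ = _ := by ring

end

end Pool.Agent.PLR
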